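import Mathlib
import Pool.Agent.Q147.StepTVS

/-!
# MP_aab88c_gt : the free topological vector space of a closed subspace

For every metrizable space `X` and closed subset `Y` of `X` the free topological vector space
`V(Y)` is topologically isomorphic to a vector subspace of `V(X)`, by the canonical map.
-/

universe u

namespace Pool.Agent.Results.MP_aab88c_gt.ClosedSubspaceEmbeds

open Set Topology Pool.Agent.Q147.StepTVS

/-- `(V, i)` is the free topological vector space on the topological space `X`: `V` is a (real,
Hausdorff) topological vector space, `i : X → V` is continuous, and every continuous map `f` of `X`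
into a Hausdorff topological vector space `E` factors as `f = g ∘ i` for exactly one continuous
linear map `g : V → E`. -/
structure IsFreeTVS (X : Type u) [TopologicalSpace X] (V : Type u) [AddCommGroup V] [Module ℝ V]
    [TopologicalSpace V] (i : X → V) : Prop where
  addGroup : IsTopologicalAddGroup V
  smul : ContinuousSMul ℝ V
  t2 : T2Space V
  cont : Continuous i
  lift : ∀ (E : Type u) [AddCommGroup E] [Module ℝ E] [TopologicalSpace E]
    [IsTopologicalAddGroup E] [ContinuousSMul ℝ E] [T2Space E] (f : X → E), Continuous f →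
      ∃! g : V →L[ℝ] E, ∀ x, g (i x) = f x

theorem embedding {X : Type u} [TopologicalSpace X] [TopologicalSpace.MetrizableSpace X]
    {Y : Set X} (hY : IsClosed Y) {VX VY : Type u} [AddCommGroup VX] [Module ℝ VX]
    [TopologicalSpace VX] [AddCommGroup VY] [Module ℝ VY] [TopologicalSpace VY] {iX : X → VX}
    {iY : Y → VY} (hX : IsFreeTVS X VX iX) (hYf : IsFreeTVS Y VY iY) :
    ∃ T : VY →L[ℝ] VX, (∀ y : Y, T (iY y) = iX y) ∧ IsEmbedding T := by
  have _ := hX.addGroup
  have _ := hX.smul
  have _ := hX.t2
  have _ := hYf.addGroup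
  have _ := hYf.smul
  have _ := hYf.t2
  obtain ⟨T, hT, -⟩ := hYf.lift VX (fun y => iX y) (hX.cont.comp continuous_subtype_val)
  refine ⟨T, hT, ?_⟩
  rcases Y.eq_empty_or_nonempty with rfl | hne
  · -- the space `V(Y)` is trivial
    obtain ⟨g, -, hg⟩ := hYf.lift VY iY hYf.cont
    have h1 : ContinuousLinearMap.id ℝ VY = 0 :=
      (hg _ fun y => y.2.elim).trans (hg _ fun y => y.2.elim).symm
    have h2 : Subsingleton VY := by
      refine ⟨fun a b => ?_⟩
      have h3 : ∀ c : VY, c = 0 := fun c => congrArg (fun φ : VY →L[ℝ] VY => φ c) h1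
      rw [h3 a, h3 b]
    exact ⟨⟨Subsingleton.elim _ _⟩, fun a b _ => Subsingleton.elim a b⟩
  · obtain ⟨r, hr, hrY⟩ := exists_extension hY hne iY hYf.cont
    -- the Hausdorff quotient
    obtain ⟨R, hR, -⟩ := hX.lift (SeparationQuotient (SF VY))
      (fun x => SeparationQuotient.mk (r x)) (SeparationQuotient.continuous_mk.comp hr)
    let c : VY →L[ℝ] SeparationQuotient (SF VY) :=
      (SeparationQuotient.mkCLM ℝ (SF VY)).comp ⟨const, const_inducing.continuous⟩
    have hc : IsInducing c := SeparationQuotient.isInducing_mk.comp const_inducing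
    obtain ⟨g, -, hg⟩ := hYf.lift (SeparationQuotient (SF VY)) (fun y => c (iY y))
      (c.continuous.comp hYf.cont)
    have h1 : R.comp T = c := by
      refine (hg _ fun y => ?_).trans (hg _ fun y => rfl).symm
      change R (T (iY y)) = c (iY y)
      rw [hT, hR, hrY]
      rfl
    have h2 : IsInducing (R ∘ T) := by
      have : (R ∘ T : VY → SeparationQuotient (SF VY)) = c := by
        rw [← h1]
        rfl
      rw [this]
      exact hc
    exact (IsInducing.of_comp T.continuous R.continuous h2).isEmbedding

/-- For every metrizable space `X`, every closed `Y ⊆ X` and free topological vector spaces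
`(V(X), iX)`, `(V(Y), iY)` on `X` and on the subspace `Y`, the continuous linear map
`T : V(Y) → V(X)` extending the inclusion of `Y` in `X` is a homeomorphism onto its image. -/
theorem result : ∀ (X : Type u) [TopologicalSpace X] [TopologicalSpace.MetrizableSpace X]
    (Y : Set X), IsClosed Y → ∀ (VX VY : Type u) [AddCommGroup VX] [Module ℝ VX]
    [TopologicalSpace VX] [AddCommGroup VY] [Module ℝ VY] [TopologicalSpace VY] (iX : X → VX)
    (iY : Y → VY), IsFreeTVS X VX iX → IsFreeTVS Y VY iY →
      ∃ T : VY →L[ℝ] VX, (∀ y : Y, T (iY y) = iX y) ∧ IsEmbedding T := by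
  intro X _ _ Y hY VX VY _ _ _ _ _ _ iX iY hX hYf
  exact embedding hY hX hYf

end Pool.Agent.Results.MP_aab88c_gt.ClosedSubspaceEmbeds
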